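import Pool.Agent.W4.QD.Stms

/-!
# Project QD (helper4), part CLASS: projective classes modulo `p` of points of the curve
-/

set_option autoImplicit false

namespace Pool.Agent.W101.QD

open NumberField Finset Polynomial Pool.Agent.W4.CF Pool.Agent.W4.VC Pool.Agent.W4.QD

section
variable {K : Type} [Field K] [NumberField K]

/-- an element divides its norm -/
lemma dvd_norm (x : 𝓞 K) : x ∣ ((Algebra.norm ℤ x : ℤ) : 𝓞 K) := by
  have h1 := Ideal.absNorm_mem (Ideal.span {x})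
  rw [Ideal.absNorm_span_singleton, Ideal.mem_span_singleton] at h1
  have h2 : (((Algebra.norm ℤ x).natAbs : ℕ) : 𝓞 K) ∣ ((Algebra.norm ℤ x : ℤ) : 𝓞 K) := by
    have h3 : (((Algebra.norm ℤ x).natAbs : ℕ) : ℤ) ∣ Algebra.norm ℤ x :=
      Int.natAbs_dvd.2 dvd_rfl
    have h4 := map_dvd (Int.castRingHom (𝓞 K)) h3
    simpa using h4
  exact h1.trans h2

/-- divisibility of integers in `𝓞 K` -/
lemma int_dvd {a b : ℤ} (h : (a : 𝓞 K) ∣ (b : 𝓞 K)) : a ∣ b := by
  have h1 := map_dvd (Algebra.norm ℤ) h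
  have e : ∀ c : ℤ, Algebra.norm ℤ (c : 𝓞 K) = c ^ Module.finrank ℤ (𝓞 K) := by
    intro c
    have := Algebra.norm_algebraMap (R := ℤ) (S := 𝓞 K) c
    rwa [algebraMap_int_eq, eq_intCast] at this
  rw [e, e, Int.pow_dvd_pow_iff Module.finrank_pos.ne'] at h1
  exact h1

/-- an element of norm prime to `p` is invertible modulo `p` -/
lemma exists_inv {p : ℕ} (hp : p.Prime) {x : 𝓞 K} (hx : ¬ (p : ℤ) ∣ Algebra.norm ℤ x) :
    ∃ w : 𝓞 K, (p : 𝓞 K) ∣ x * w - 1 := by
  obtain ⟨c, hc⟩ := dvd_norm x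
  have hcop : IsCoprime (Algebra.norm ℤ x) (p : ℤ) := by
    rw [isCoprime_comm, Prime.coprime_iff_not_dvd (Nat.prime_iff_prime_int.1 hp)]
    exact hx
  obtain ⟨u, v, huv⟩ := hcop
  refine ⟨c * u, -v, ?_⟩
  have h1 : ((u * Algebra.norm ℤ x + v * (p : ℤ) : ℤ) : 𝓞 K) = 1 := by
    rw [huv]
    simp
  push_cast at h1
  rw [← mul_assoc, ← hc]
  linear_combination h1

/-- a prime `p` prime to the norm of `x` can be cancelled -/
lemma cancel {p : ℕ} (hp : p.Prime) {x y : 𝓞 K} (hx : ¬ (p : ℤ) ∣ Algebra.norm ℤ x)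
    (h : (p : 𝓞 K) ∣ y * x) : (p : 𝓞 K) ∣ y := by
  obtain ⟨w, hw⟩ := exists_inv hp hx
  have h1 : y = (y * x) * w - y * (x * w - 1) := by ring
  rw [h1]
  exact dvd_sub (h.mul_right _) (hw.mul_left _)

/-- an integral polynomial of small degree vanishing at `θ` is zero -/
lemma poly_zero {θ : 𝓞 K} (hθ : Gen θ) {f : ℤ[X]} (hf : f.natDegree < Module.finrank ℚ K)
    (h0 : aeval θ f = 0) : f = 0 := by
  by_contra hne
  have h1 : aeval (θ : K) (f.map (Int.castRingHom ℚ)) = 0 := by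
    have h2 : aeval (θ : K) f = 0 := by
      have := congrArg (algebraMap (𝓞 K) K) h0
      rw [map_zero, ← Polynomial.aeval_algebraMap_apply] at this
      exact this
    rw [← h2]
    simp only [aeval_def, eval₂_map]
    congr 1
    exact RingHom.ext_int _ _
  have hint : IsIntegral ℚ (θ : K) := Algebra.IsIntegral.isIntegral _
  have hne' : f.map (Int.castRingHom ℚ) ≠ 0 :=
    (Polynomial.map_ne_zero_iff Int.cast_injective).2 hne
  have h3 := natDegree_le_natDegree (minpoly.degree_le_of_ne_zero ℚ (θ : K) hne' h1)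
  have h4 : (minpoly ℚ (θ : K)).natDegree = Module.finrank ℚ K :=
    (Field.primitive_element_iff_minpoly_natDegree_eq ℚ (θ : K)).1
      (IntermediateField.adjoin_eq_top_of_algebra ℚ _ hθ)
  have h5 : (f.map (Int.castRingHom ℚ)).natDegree ≤ f.natDegree := natDegree_map_le
  omega

/-- integral multiples of the points are in `ℤ + ℤ θ` -/
lemma lin {θ : 𝓞 K} {i : ℕ} (hθ : Gen θ) (hi : IdxG θ i) {τ δ : 𝓞 K} {k : ℕ}
    (hδ : OnC θ τ k δ) : ∃ A B : ℤ, (i : 𝓞 K) * (τ * δ ^ k) = A + B * θ := by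
  obtain ⟨g, hg, hgi⟩ := hi.2 (τ * δ ^ k)
  obtain ⟨n, a, b, hn, hab⟩ := hδ
  have hdeg : g.natDegree ≤ 1 := by
    rcases le_or_gt (Module.finrank ℚ K) 2 with h | h
    · omega
    · set f : ℤ[X] := C n * g - C (i : ℤ) * (C a + C b * X) with hf
      have h1 : aeval θ f = 0 := by
        rw [hf]
        simp only [map_sub, map_mul, map_add, aeval_X, eq_intCast, map_intCast]
        rw [← hgi, Int.cast_natCast]
        linear_combination (i : 𝓞 K) * hab
      have h2 : f.natDegree < Module.finrank ℚ K := by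
        refine lt_of_le_of_lt (natDegree_sub_le _ _) (max_lt ?_ ?_)
        · exact lt_of_le_of_lt (natDegree_C_mul_le _ _) hg
        · refine lt_of_le_of_lt (natDegree_C_mul_le _ _) (lt_of_le_of_lt (b := 1) ?_ (by omega))
          refine (natDegree_add_le _ _).trans (max_le (by simp) ?_)
          exact (natDegree_C_mul_le _ _).trans natDegree_X_le
      have h3 := poly_zero hθ h2 h1
      have h4 : C n * g = C (i : ℤ) * (C a + C b * X) := sub_eq_zero.1 h3
      have h5 : (C n * g).natDegree = g.natDegree := natDegree_C_mul hn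
      rw [← h5, h4]
      refine (natDegree_C_mul_le _ _).trans ?_
      refine (natDegree_add_le _ _).trans (max_le (by simp) ?_)
      exact (natDegree_C_mul_le _ _).trans natDegree_X_le
  refine ⟨g.coeff 0, g.coeff 1, ?_⟩
  rw [hgi]
  conv_lhs => rw [eq_X_add_C_of_natDegree_le_one hdeg]
  simp only [map_add, map_mul, aeval_X, eq_intCast, map_intCast]
  ring

end

theorem t_CLASS : S_KROOT → S_CLASS := by
  classical
  intro hK K _ _ θ i hθ hi
  obtain ⟨P0, hP0⟩ := hK K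
  refine ⟨max i P0, fun τ k p hk hp hpP hτ s hs hinj => ?_⟩
  have hpi : i < p := (le_max_left _ _).trans_lt hpP
  have hpP0 : P0 < p := (le_max_right _ _).trans_lt hpP
  have hp1 := hp.one_lt
  have hpZ : Prime (p : ℤ) := Nat.prime_iff_prime_int.1 hp
  -- inverse of `i τ`
  have hiτ : ¬ (p : ℤ) ∣ Algebra.norm ℤ ((i : 𝓞 K) * τ) := by
    rw [map_mul]
    intro h
    rcases hpZ.dvd_or_dvd h with h | h
    · rw [Algebra.norm_natCast] at h
      have h1 := hpZ.dvd_of_dvd_pow h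
      have h2 : p ∣ i := by exact_mod_cast h1
      have h3 := Nat.le_of_dvd hi.1 h2
      omega
    · exact hτ h
  obtain ⟨w', hw'⟩ := exists_inv hp hiτ
  -- the multiples of the points
  have key : ∀ δ ∈ s, ∀ δ' ∈ s, ∀ ν ∈ Icc 1 (p - 1), ∀ ν' ∈ Icc 1 (p - 1),
      (p : 𝓞 K) ∣ (ν : 𝓞 K) * δ - (ν' : 𝓞 K) * δ' → δ = δ' ∧ ν = ν' := by
    intro δ hδ δ' hδ' ν hν ν' hν' h
    rw [mem_Icc] at hν hν'
    have hcop : IsCoprime (ν : ℤ) (p : ℤ) := by
      rw [isCoprime_comm, Prime.coprime_iff_not_dvd hpZ]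
      intro hd
      have h2 : p ∣ ν := by exact_mod_cast hd
      have := Nat.le_of_dvd (by omega) h2
      omega
    obtain ⟨u, v, huv⟩ := hcop
    have h1 : ((u * ν + v * (p : ℤ) : ℤ) : 𝓞 K) = 1 := by
      rw [huv]
      simp
    push_cast at h1
    have hδδ : δ = δ' := by
      refine hinj δ hδ δ' hδ' (u * ν') ?_
      have e : δ - ((u * (ν' : ℤ) : ℤ) : 𝓞 K) * δ' =
          (u : 𝓞 K) * ((ν : 𝓞 K) * δ - (ν' : 𝓞 K) * δ') + (p : 𝓞 K) * ((v : 𝓞 K) * δ) := by
        push_cast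
        linear_combination (-δ) * h1
      rw [e]
      exact dvd_add (h.mul_left _) (dvd_mul_right _ _)
    refine ⟨hδδ, ?_⟩
    subst hδδ
    rw [← sub_mul] at h
    have h2 := cancel hp (hs δ hδ).2 h
    have h3 : ((p : ℤ) : 𝓞 K) ∣ (((ν : ℤ) - (ν' : ℤ) : ℤ) : 𝓞 K) := by
      push_cast
      exact h2
    have h4 := int_dvd h3
    have h5 := Int.eq_zero_of_abs_lt_dvd h4 (by rw [abs_lt]; constructor <;> omega)
    omega
  set T : Finset (𝓞 K × ℕ) := s ×ˢ Icc 1 (p - 1) with hT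
  set xf : 𝓞 K × ℕ → 𝓞 K := fun q => (q.2 : 𝓞 K) * q.1 with hxf
  have hxinj : Set.InjOn xf T := by
    intro q hq q' hq' h
    rw [mem_coe, hT, mem_product] at hq hq'
    have := key q.1 hq.1 q'.1 hq'.1 q.2 hq.2 q'.2 hq'.2 (by
      simp only [hxf] at h
      rw [h, sub_self]
      exact dvd_zero _)
    exact Prod.ext this.1 this.2
  set Xs : Finset (𝓞 K) := T.image xf with hXs
  have hcardX : Xs.card = s.card * (p - 1) := by
    rw [hXs, card_image_of_injOn hxinj, hT, card_product, Nat.card_Icc]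
    simp
  have hXinc : ∀ x ∈ Xs, ∀ y ∈ Xs, (p : 𝓞 K) ∣ x - y → x = y := by
    intro x hx y hy h
    obtain ⟨q, hq, rfl⟩ := mem_image.1 hx
    obtain ⟨q', hq', rfl⟩ := mem_image.1 hy
    rw [hT, mem_product] at hq hq'
    have := key q.1 hq.1 q'.1 hq'.1 q.2 hq.2 q'.2 hq'.2 h
    rw [Prod.ext this.1 this.2]
  have hAB : ∀ x ∈ Xs, ∃ A B : ℤ, (i : 𝓞 K) * (τ * x ^ k) = A + B * θ := by
    intro x hx
    obtain ⟨q, hq, rfl⟩ := mem_image.1 hx
    rw [hT, mem_product] at hq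
    obtain ⟨A, B, h⟩ := lin hθ hi (hs q.1 hq.1).1
    refine ⟨(q.2 : ℤ) ^ k * A, (q.2 : ℤ) ^ k * B, ?_⟩
    simp only [hxf]
    push_cast
    rw [mul_pow]
    linear_combination ((q.2 : 𝓞 K) ^ k) * h
  choose! A B hAB using hAB
  set f : 𝓞 K → ℤ × ℤ := fun x => (A x % p, B x % p) with hf
  set R : Finset (ℤ × ℤ) := Finset.Ico 0 (p : ℤ) ×ˢ Finset.Ico 0 (p : ℤ) with hR
  have hmaps : ∀ x ∈ Xs, f x ∈ R := by
    intro x _
    have hp0 : (0 : ℤ) < p := by exact_mod_cast hp.pos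
    rw [hR, mem_product, Finset.mem_Ico, Finset.mem_Ico]
    exact ⟨⟨Int.emod_nonneg _ hp0.ne', Int.emod_lt_of_pos _ hp0⟩,
      ⟨Int.emod_nonneg _ hp0.ne', Int.emod_lt_of_pos _ hp0⟩⟩
  have hfib : ∀ ab ∈ R, (Xs.filter (fun x => f x = ab)).card ≤ k ^ Module.finrank ℚ K := by
    intro ab _
    refine hP0 p hp hpP0 k hk (w' * ((ab.1 : 𝓞 K) + (ab.2 : 𝓞 K) * θ)) _ ?_ ?_
    · intro x hx
      rw [mem_filter] at hx
      obtain ⟨hxX, hxf'⟩ := hx
      have h1 := hAB x hxX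
      have e1 : (ab.1 : ℤ) = A x - p * (A x / p) := by
        rw [← hxf']
        simp only [hf]
        have := Int.emod_add_mul_ediv (A x) p
        linarith
      have e2 : (ab.2 : ℤ) = B x - p * (B x / p) := by
        rw [← hxf']
        simp only [hf]
        have := Int.emod_add_mul_ediv (B x) p
        linarith
      obtain ⟨c, hc⟩ := hw'
      rw [e1, e2]
      push_cast
      refine ⟨w' * (((A x / p : ℤ) : 𝓞 K) + ((B x / p : ℤ) : 𝓞 K) * θ) - c * x ^ k, ?_⟩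
      linear_combination w' * h1 - (x ^ k) * hc
    · intro x hx y hy h
      exact hXinc x (mem_filter.1 hx).1 y (mem_filter.1 hy).1 h
  have hcount := card_le_mul_card_image_of_maps_to hmaps _ hfib
  rw [hR, card_product, Int.card_Ico, sub_zero, Int.toNat_natCast, hcardX] at hcount
  -- conclusion
  have hp2 : p ≤ 2 * (p - 1) := by omega
  have h6 : s.card * (p - 1) ≤ 2 * k ^ Module.finrank ℚ K * p * (p - 1) := by
    calc s.card * (p - 1) ≤ k ^ Module.finrank ℚ K * (p * p) := hcount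
      _ ≤ k ^ Module.finrank ℚ K * (p * (2 * (p - 1))) := by gcongr
      _ = _ := by ring
  exact Nat.le_of_mul_le_mul_right h6 (by omega)

end Pool.Agent.W101.QD
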